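import Pool.Agent.V11265.IC4

/-!
# The sharp isocapacitary constant for the Hardy inequality on trees

For `1 < p < ∞` the least constant `K` such that `[μ] ≤ K [[μ]]_c` for all locally finite rooted
trees, all edge weights and all measures is `K_p = p^p / (p - 1)^(p - 1)`.

Upper bound: the strong capacitary inequality
`∫ p t^(p-1) cap {I φ > t} dt ≤ K_p ∑ φ^p π`, proved with the test functions
`(min (I φ, t) / t)^(p/(p-1))`.  Sharpness: the infinite path with weight `1` and tails
`μ(S(α_k)) = k^(1-p)`, for which `[[μ]]_c = 1` and `[μ] = K_p`.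
-/

open MeasureTheory
open scoped ENNReal NNReal

namespace Pool.Agent.Results.MP_a9eb04_an.BestConstant

open Pool.Agent.V11265.IC

theorem result (p : ℝ) (hp : 1 < p) :
    IsLeast {c : ℝ≥0∞ | ∀ (V : Type) [Countable V] (T : RTree V) (π : T.Edge → ℝ≥0)
        (μ : Measure T.Pt), T.hardyConst p π μ ≤ c * T.isoConst p π μ}
      (ENNReal.ofReal (p ^ p / (p - 1) ^ (p - 1))) ∧
    ∃ (T : RTree ℕ) (μ : Measure T.Pt), T.isoConst p (fun _ => 1) μ = 1 ∧
      T.hardyConst p (fun _ => 1) μ = ENNReal.ofReal (p ^ p / (p - 1) ^ (p - 1)) := by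
  have hK : ENNReal.ofReal (p ^ p / (p - 1) ^ (p - 1)) = ENNReal.ofReal (K p) := rfl
  have hK0 : ENNReal.ofReal (K p) ≠ 0 := by simpa using K_pos p hp
  rw [hK]
  have h1 := hardy_ge p hp
  have h2 := iso_le p hp
  refine ⟨⟨?_, ?_⟩, pathTree, μ0 p, ?_, ?_⟩
  · intro V _ T π μ
    exact upper T p hp π μ
  · intro c hc
    calc ENNReal.ofReal (K p) ≤ pathTree.hardyConst p (fun _ => 1) (μ0 p) := h1
      _ ≤ c * pathTree.isoConst p (fun _ => 1) (μ0 p) := hc ℕ pathTree _ _
      _ ≤ c * 1 := by gcongr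
      _ = c := mul_one c
  · refine le_antisymm h2 ?_
    by_contra hlt
    push Not at hlt
    have h3 := h1.trans (upper pathTree p hp (fun _ => 1) (μ0 p))
    have h4 : ENNReal.ofReal (K p) * pathTree.isoConst p (fun _ => 1) (μ0 p) <
        ENNReal.ofReal (K p) * 1 :=
      (ENNReal.mul_lt_mul_iff_right hK0 ENNReal.ofReal_ne_top).mpr hlt
    rw [mul_one] at h4
    exact absurd h3 (not_le.mpr h4)
  · refine le_antisymm ?_ h1
    calc pathTree.hardyConst p (fun _ => 1) (μ0 p)
        ≤ ENNReal.ofReal (K p) * pathTree.isoConst p (fun _ => 1) (μ0 p) :=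
          upper pathTree p hp _ _
      _ ≤ ENNReal.ofReal (K p) * 1 := by gcongr
      _ = _ := mul_one _

end Pool.Agent.Results.MP_a9eb04_an.BestConstant
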